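import Pool.Agent.Schatten.Pos

/-!
Isometric embeddings between infinite-dimensional Schatten classes: for all `0 < p, q ≤ ∞` with
`p ≠ q`, the class `S_q(H)` embeds linearly and isometrically into `S_p(H)` exactly when `q = 2`.

Definitions used (files `Pool/Agent/Schatten/Defs.lean` and `Pool/Agent/Schatten/Class.lean`):
* `absMult T s` is the multiplicity of `s` as an eigenvalue of `|T| = (T* T)^{1/2}`;
* `powSum p T = ∑_{s > 0} absMult T s * s ^ p`, i.e. `∑_j s_j(T)^p`;
* `IsSchatten p T`: `T` is compact, and `powSum p T < ∞` if `p < ∞`;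
* `schattenClass H p hp` is the complex vector space of all such `T`;
* `schattenNorm p T = (powSum p T)^{1/p}` for `p < ∞`, and the operator norm for `p = ∞`.
-/

open scoped ENNReal
open Pool.Agent.Schatten

/-- For a separable infinite-dimensional complex Hilbert space `H` and `0 < p, q ≤ ∞` with `p ≠ q`,
there is a linear isometric embedding of `S_q(H)` into `S_p(H)` if and only if `q = 2`. -/
theorem Pool.Agent.Results.MP_dcad15_an.SchattenEmbedding.result
    {H : Type*} [NormedAddCommGroup H] [InnerProductSpace ℂ H] [CompleteSpace H]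
    [TopologicalSpace.SeparableSpace H] (hH : ¬ FiniteDimensional ℂ H)
    (p q : ℝ≥0∞) (hp : 0 < p) (hq : 0 < q) (hpq : p ≠ q) :
    (∃ J : schattenClass H q hq →ₗ[ℂ] schattenClass H p hp,
      ∀ T : schattenClass H q hq,
        schattenNorm p (J T : H →L[ℂ] H) = schattenNorm q (T : H →L[ℂ] H)) ↔ q = 2 :=
  classification hH p q hp hq hpq
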